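import Mathlib
import Pool.Agent.W5h7.DStarTwentyOne

/-!
# `MP_f88521_co`: exactly when `R(τ_{4k-r+1}(3), 2) = 5k - r`

The formula `R(τ_{4k-r+1}(3), 2) = 5k - r` (`k ≥ 1`, `1 ≤ r ≤ 4`) is false in general: it holds
exactly for the ten pairs with `k ≤ r` and for `(k, r) = (5, 4)`.  In all other cases the Ramsey
number is larger than `5k - r`.
-/

namespace Pool.Agent.Results.MP_f88521_co.ExactlyWhen

open Pool.Agent.W5h7.DStar Finset

/-- A blow-up of one of five small good colourings disproves the formula. -/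
theorem exists_base (k r : ℕ) (hr : 1 ≤ r) (hr4 : r ≤ 4) (hk : r < k)
    (hex : ¬ (k = 5 ∧ r = 4)) :
    ∃ m c w, Good m c ∧ 0 < m ∧ m * w ≤ 5 * k - r ∧ k ≤ c * w := by
  by_cases h1 : k % 2 = 0 ∧ 2 * r ≤ k
  · exact ⟨9, 2, k / 2, good9, by norm_num, by omega, by omega⟩
  by_cases h2 : k % 2 = 1 ∧ 2 * r + 9 ≤ k
  · exact ⟨9, 2, (k + 1) / 2, good9, by norm_num, by omega, by omega⟩
  have hk16 : k ≤ 16 := by omega
  have key : (13 * 1 ≤ 5 * k - r ∧ k ≤ 3 * 1) ∨ (17 * 1 ≤ 5 * k - r ∧ k ≤ 4 * 1) ∨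
      (22 * 1 ≤ 5 * k - r ∧ k ≤ 5 * 1) ∨ (13 * 2 ≤ 5 * k - r ∧ k ≤ 3 * 2) ∨
      (29 * 1 ≤ 5 * k - r ∧ k ≤ 7 * 1) ∨ (13 * 3 ≤ 5 * k - r ∧ k ≤ 3 * 3) ∨
      (13 * 4 ≤ 5 * k - r ∧ k ≤ 3 * 4) ∨ (17 * 3 ≤ 5 * k - r ∧ k ≤ 4 * 3) ∨
      (29 * 2 ≤ 5 * k - r ∧ k ≤ 7 * 2) ∨ (13 * 5 ≤ 5 * k - r ∧ k ≤ 3 * 5) := by
    omega
  rcases key with h | h | h | h | h | h | h | h | h | h
  · exact ⟨13, 3, 1, good13, by norm_num, h.1, h.2⟩
  · exact ⟨17, 4, 1, good17, by norm_num, h.1, h.2⟩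
  · exact ⟨22, 5, 1, good22, by norm_num, h.1, h.2⟩
  · exact ⟨13, 3, 2, good13, by norm_num, h.1, h.2⟩
  · exact ⟨29, 7, 1, good29, by norm_num, h.1, h.2⟩
  · exact ⟨13, 3, 3, good13, by norm_num, h.1, h.2⟩
  · exact ⟨13, 3, 4, good13, by norm_num, h.1, h.2⟩
  · exact ⟨17, 4, 3, good17, by norm_num, h.1, h.2⟩
  · exact ⟨29, 7, 2, good29, by norm_num, h.1, h.2⟩
  · exact ⟨13, 3, 5, good13, by norm_num, h.1, h.2⟩

/-- The Ramsey number exceeds `M` as soon as `M` does not suffice. -/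
theorem lt_ramsey {n M : ℕ} (hn : 2 ≤ n) (h : ¬ Arrows M (tau n 3)) : M < ramsey (tau n 3) := by
  have hne : {N | Arrows N (tau n 3)}.Nonempty := by
    refine ⟨2 * n, ?_⟩
    by_contra hcon
    obtain ⟨c, hc⟩ := exists_colouring hn hcon
    have := goodman (K := n + 1) (by omega) c fun u v huv => by
      have := hc u v huv
      omega
    omega
  by_contra hcon
  push Not at hcon
  exact h ((Nat.sInf_mem hne).mono hcon)

theorem ramsey_le {n M : ℕ} (h : Arrows M (tau n 3)) : ramsey (tau n 3) ≤ M := Nat.sInf_le h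

/-- The lower bound `5k - r`. -/
theorem lower (k r : ℕ) (hk : 1 ≤ k) (hr : 1 ≤ r) (hr4 : r ≤ 4) :
    5 * k - r ≤ ramsey (tau (4 * k - r + 1) 3) := by
  rcases Nat.lt_or_ge (4 * k - r + 1) 2 with hn | hn
  · -- one vertex
    have hk1 : k = 1 := by omega
    have hr1 : r = 4 := by omega
    subst hk1 hr1
    have hne : {N | Arrows N (tau 1 3)}.Nonempty := by
      refine ⟨1, fun c => ⟨0, ⊥, ⟨SimpleGraph.IsTree.of_subsingleton, by simp⟩,
        ⟨⟨⟨id, ?_⟩, Function.injective_id⟩⟩⟩⟩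
      intro a b hab
      exact absurd hab (by simp)
    change 1 ≤ ramsey (tau 1 3)
    by_contra hcon
    have h0 : ramsey (tau 1 3) = 0 := by omega
    have h1 : Arrows 0 (tau 1 3) := by
      have := Nat.sInf_mem hne
      have h2 : sInf {N | Arrows N (tau 1 3)} = 0 := h0
      rwa [h2] at this
    obtain ⟨i, T, hT, ⟨f⟩⟩ := h1 fun _ => 0
    exact (f 0).elim0
  · have hgood : Good (5 * k - r - 1) (k - 1) := by
      have h1 : Good 5 1 := good5
      have h2 := h1.blowup (w := k - 1) (N := 5 * k - r - 1) (by norm_num) (by omega)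
      simpa using h2
    have := lt_ramsey hn (hgood.not_arrows hn (by omega))
    omega

/-- For all `k ≥ 1` and `1 ≤ r ≤ 4` one has `R(τ_{4k-r+1}(3), 2) ≥ 5k - r`, with equality if and
only if `k ≤ r` or `(k, r) = (5, 4)`. -/
theorem result : ∀ k r : ℕ, 1 ≤ k → 1 ≤ r → r ≤ 4 →
    5 * k - r ≤ ramsey (tau (4 * k - r + 1) 3) ∧
    (ramsey (tau (4 * k - r + 1) 3) = 5 * k - r ↔ k ≤ r ∨ (k = 5 ∧ r = 4)) := by
  intro k r hk hr hr4
  refine ⟨lower k r hk hr hr4, ?_, ?_⟩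
  · intro heq
    by_contra hcon
    push Not at hcon
    obtain ⟨m, c, w, hg, hm, hN, hc⟩ := exists_base k r hr hr4 hcon.1
      (fun h => hcon.2 h.1 h.2)
    have h1 := hg.blowup hm hN
    have h2 := lt_ramsey (n := 4 * k - r + 1) (by omega)
      (h1.not_arrows (n := 4 * k - r + 1) (by omega) (by omega))
    omega
  · intro h
    refine le_antisymm (ramsey_le ?_) (lower k r hk hr hr4)
    rcases Nat.lt_or_ge (4 * k - r + 1) 2 with hn | hn
    · have hk1 : k = 1 := by omega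
      have hr1 : r = 4 := by omega
      subst hk1 hr1
      change Arrows 1 (tau 1 3)
      refine fun c => ⟨0, ⊥, ⟨SimpleGraph.IsTree.of_subsingleton, by simp⟩,
        ⟨⟨⟨id, ?_⟩, Function.injective_id⟩⟩⟩
      intro a b hab
      exact absurd hab (by simp)
    · by_contra hcon
      obtain ⟨c, hc⟩ := exists_colouring hn hcon
      rcases h with h | ⟨rfl, rfl⟩
      · have := goodman (K := k) (by omega) c fun u v huv => by
          have := hc u v huv
          omega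
        omega
      · refine no_good_twentyOne c fun u v huv => ?_
        have h1 := hc u v huv
        have h2 : 5 * 5 - 4 < (wit c u v).card + (4 * 5 - 4 + 1) := h1
        omega

end Pool.Agent.Results.MP_f88521_co.ExactlyWhen
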